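import Pool.Agent.Lib.H78B.B0

set_option autoImplicit false

/-!
B7a (S/M, two lemmas).  `extB`, `resB` commute with algebra homomorphisms.

b7_ext: `coeff_map`; `H89T.map_big` (Lib/H89T/DP8.lean), `H89T.map_fm` (DP6), and
`map φ (subB A F) = subB (A.map φ) (map φ F)` (induction or `H89T.map_shear` as a model).
b7_res: `map_sum`, `map_mul`.
-/

open MvPolynomial

namespace Pool.Agent.H78B

open Pool.Agent.H89T Pool.Agent.H53Y

theorem b7_sub {A B : Type} [CommRing A] [CommRing B] {n : ℕ} (φ : A →+* B)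
    (M : Matrix (Fin (n + 1)) (Fin (n + 1)) A) (F : MvPolynomial (Fin (n + 1)) A) :
    map φ (subB M F) = subB (M.map φ) (map φ F) := by
  induction F using MvPolynomial.induction_on with
  | C x => simp [subB, MvPolynomial.algebraMap_eq]
  | add p q hp hq =>
    simp only [subB, map_add] at hp hq ⊢
    rw [hp, hq]
  | mul_X p i hp =>
    simp only [subB, map_mul, aeval_X, map_X] at hp ⊢
    rw [hp]
    congr 1
    rw [map_sum]
    refine Finset.sum_congr rfl fun j _ => ?_
    rw [map_mul, map_C, map_X, Matrix.map_apply]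

theorem b7_ext {B B' : Type} [CommRing B] [CommRing B'] [Algebra ℂ B] [Algebra ℂ B'] {n c : ℕ}
    (φ : B →ₐ[ℂ] B') {ιL : Type} {d : ιL → ℕ} (f : FV (Fin (n + 1)) d → B)
    (A : Matrix (Fin (n + 1)) (Fin (n + 1)) B) (lam : ιL → ℂ) (s : Fin c → Fin n → ℂ)
    (E : ιL → Fin c → MvPolynomial (Fin (n + 1) ⊕ Fin c) ℂ) (x : FV (Fin (n + 1) ⊕ Fin c) d) :
    φ (extB f A lam s E x) = extB (fun y => φ (f y)) (A.map φ) lam s E x := by
  have h1 := map_big φ (lam x.1) (psi s (E x.1)) (subB A (fmB f x.1))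
  have h2 := congrArg (coeff x.2.1) h1
  rw [coeff_map] at h2
  have h3 : map (φ : B →+* B') (subB A (fmB f x.1)) = subB (A.map φ) (fmB (fun y => φ (f y)) x.1) := by
    rw [b7_sub]
    unfold fmB
    rw [map_fm]
    rfl
  rw [h3] at h2
  exact h2

theorem b7_res {B B' : Type} [CommRing B] [CommRing B'] [Algebra ℂ B] [Algebra ℂ B']
    (φ : B →ₐ[ℂ] B') {κ σ : Type} {m mv : σ → ℕ} {sx : κ → σ}
    (η : LV (fun x => mv (sx x)) → B)
    (Lam : (s : σ) → Matrix (Fin (mv s + 1)) (Fin (m s + 1)) B) (Q : κ → Prop)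
    (x : LV (fun x : {x : κ // Q x} => m (sx x.1))) :
    φ (resB η Lam Q x) = resB (fun y => φ (η y)) (fun s => (Lam s).map φ) Q x := by
  unfold resB
  rw [map_sum]
  refine Finset.sum_congr rfl fun l _ => ?_
  rw [map_mul]
  rfl

end Pool.Agent.H78B
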