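import Pool.Agent.Lib.H78B.B6
import Pool.Agent.Lib.H78B.B7a

set_option autoImplicit false

/-!
B7 (M/L).  Elimination: the main theorem of the module E.

Proof.  Copy `H89T.alg2` (Lib/H89T/DP8.lean) and `H78G.elim` (Lib/H78G/E3.lean).
`A₁` = the polynomial ring over `ℂ` in the variables `f`, `η`, `A`, `A'`, `Lam s`, `Lb s`; generic
elements `fg, ηg, Ag, A'g, Lamg, Lbg` of `A₁` (variables).  `I` = the ideal generated by the entries of
`A'g * Ag - 1`, of all `Lbg s * Lamg s - 1`, and all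
`aeval (Sum.elim (extB fg Ag lam s E) (resB ηg Lamg _)) (Θ S)`, `S.card ≤ c`, `lam j ≠ 0`,
`E j i` homogeneous of degree `d j - 1` (complex).  `v = ∏ j, eval (fun i => Ag i 0) (fmB fg j)`; `S₀` = the
submonoid of the `rename (inl) Ξ * v ^ k`, `Ξ ≠ 0`.
Disjoint: `Ideal.exists_le_prime_disjoint`, `K` = fraction field of `A₁ ⧸ P`, `π : A₁ →ₐ[ℂ] K`;
`generic_good` for the images contradicts `I ≤ P` (b7_map: extB, resB commute with `π`).
Not disjoint: `Ξ * v ^ k ∈ I`; evaluate at a complex point: `I ≤ ker φ` if the assertion fails.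
-/

open MvPolynomial

namespace Pool.Agent.H78B

open Pool.Agent.H89T Pool.Agent.H53Y

/-- Auxiliary: the values of `Θ` commute with algebra homomorphisms. -/
theorem b7_val {B B' : Type} [CommRing B] [CommRing B'] [Algebra ℂ B] [Algebra ℂ B'] {n c : ℕ}
    (φ : B →ₐ[ℂ] B') {ιL : Type} {d : ιL → ℕ} (f : FV (Fin (n + 1)) d → B)
    (A : Matrix (Fin (n + 1)) (Fin (n + 1)) B) (lam : ιL → ℂ) (s : Fin c → Fin n → ℂ)
    (E : ιL → Fin c → MvPolynomial (Fin (n + 1) ⊕ Fin c) ℂ) {κ σ : Type} {m mv : σ → ℕ} {sx : κ → σ}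
    (η : LV (fun x => mv (sx x)) → B)
    (Lam : (s : σ) → Matrix (Fin (mv s + 1)) (Fin (m s + 1)) B) (Q : κ → Prop)
    (Θ : MvPolynomial (FV (Fin (n + 1) ⊕ Fin c) d ⊕ LV (fun x : {x : κ // Q x} => m (sx x.1))) ℂ) :
    φ (aeval (Sum.elim (extB f A lam s E) (resB η Lam Q)) Θ) =
      aeval (Sum.elim (extB (fun y => φ (f y)) (A.map φ) lam s E)
        (resB (fun y => φ (η y)) (fun s => (Lam s).map φ) Q)) Θ := by
  have h : φ.comp (aeval (Sum.elim (extB f A lam s E) (resB η Lam Q))) =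
      aeval (Sum.elim (extB (fun y => φ (f y)) (A.map φ) lam s E)
        (resB (fun y => φ (η y)) (fun s => (Lam s).map φ) Q)) := by
    refine MvPolynomial.algHom_ext fun p => ?_
    rw [AlgHom.comp_apply, aeval_X, aeval_X]
    rcases p with p | p
    · exact b7_ext φ f A lam s E p
    · exact b7_res φ η Lam Q p
  rw [← h]
  rfl

/-- Auxiliary: the value at the first column commutes with algebra homomorphisms. -/
theorem b7_col {B B' : Type} [CommRing B] [CommRing B'] [Algebra ℂ B] [Algebra ℂ B'] {n : ℕ}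
    (φ : B →ₐ[ℂ] B') {ιL : Type} {d : ιL → ℕ} (f : FV (Fin (n + 1)) d → B)
    (A : Matrix (Fin (n + 1)) (Fin (n + 1)) B) (j : ιL) :
    φ (eval (fun i => A i 0) (fmB f j)) = eval (fun i => A.map φ i 0) (fmB (fun y => φ (f y)) j) := by
  change (φ : B →+* B') _ = _
  rw [hom_eval, fmB, map_fm]
  rfl

/-- Auxiliary: matrix identities commute with homomorphisms. -/
theorem b7_mul {B B' : Type} [CommRing B] [CommRing B'] [Algebra ℂ B] [Algebra ℂ B'] (φ : B →ₐ[ℂ] B')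
    {a b : ℕ} (M : Matrix (Fin a) (Fin b) B) (N : Matrix (Fin b) (Fin a) B)
    (h : ∀ i j, φ ((M * N - 1 : Matrix (Fin a) (Fin a) B) i j) = 0) : M.map φ * N.map φ = 1 := by
  ext i j
  have h1 := h i j
  rw [Matrix.sub_apply, map_sub, sub_eq_zero] at h1
  rw [Matrix.mul_apply] at h1
  rw [Matrix.mul_apply]
  simp only [Matrix.map_apply]
  rw [map_sum] at h1
  simp only [map_mul] at h1
  rw [h1, Matrix.one_apply, Matrix.one_apply]
  split_ifs <;> simp

theorem b7_mul' {B B' : Type} [CommRing B] [CommRing B'] [Algebra ℂ B] [Algebra ℂ B'] (φ : B →ₐ[ℂ] B')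
    {a b : ℕ} (M : Matrix (Fin a) (Fin b) B) (N : Matrix (Fin b) (Fin a) B)
    (h : M.map φ * N.map φ = 1) (i j : Fin a) : φ ((M * N - 1 : Matrix (Fin a) (Fin a) B) i j) = 0 := by
  have h1 := congrFun (congrFun h i) j
  rw [Matrix.mul_apply] at h1
  simp only [Matrix.map_apply] at h1
  rw [Matrix.sub_apply, map_sub, Matrix.mul_apply, map_sum, sub_eq_zero]
  simp only [map_mul]
  rw [h1, Matrix.one_apply, Matrix.one_apply]
  split_ifs <;> simp

theorem e_main : E_statement := by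
  intro n c nb ιL _ d σ κ _ _ m mv sx part hd hc Θ hΘ
  classical
  let V : Type := (FV (Fin (n + 1)) d ⊕ LV (fun x => mv (sx x))) ⊕
    (((Fin (n + 1) × Fin (n + 1)) ⊕ (Fin (n + 1) × Fin (n + 1))) ⊕
      ((Σ s : σ, Fin (mv s + 1) × Fin (m s + 1)) ⊕ (Σ s : σ, Fin (m s + 1) × Fin (mv s + 1))))
  let A₁ := MvPolynomial V ℂ
  let fg : FV (Fin (n + 1)) d → A₁ := fun y => X (Sum.inl (Sum.inl y))
  let ηg : LV (fun x => mv (sx x)) → A₁ := fun y => X (Sum.inl (Sum.inr y))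
  let Ag : Matrix (Fin (n + 1)) (Fin (n + 1)) A₁ := Matrix.of fun i j => X (Sum.inr (Sum.inl (Sum.inl (i, j))))
  let A'g : Matrix (Fin (n + 1)) (Fin (n + 1)) A₁ := Matrix.of fun i j => X (Sum.inr (Sum.inl (Sum.inr (i, j))))
  let Lamg : (s : σ) → Matrix (Fin (mv s + 1)) (Fin (m s + 1)) A₁ := fun s =>
    Matrix.of fun l b => X (Sum.inr (Sum.inr (Sum.inl ⟨s, (l, b)⟩)))
  let Lbg : (s : σ) → Matrix (Fin (m s + 1)) (Fin (mv s + 1)) A₁ := fun s =>
    Matrix.of fun b l => X (Sum.inr (Sum.inr (Sum.inr ⟨s, (b, l)⟩)))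
  let I : Ideal A₁ := Ideal.span ({x | ∃ i j, x = (A'g * Ag - 1 : Matrix (Fin (n + 1)) (Fin (n + 1)) A₁) i j} ∪ {x | ∃ s i j, x = (Lbg s * Lamg s - 1 : Matrix (Fin (m s + 1)) (Fin (m s + 1)) A₁) i j} ∪
    {x | ∃ S : Finset (Fin nb), S.card ≤ c ∧ ∃ (lam : ιL → ℂ) (s : Fin c → Fin n → ℂ)
      (E : ιL → Fin c → MvPolynomial (Fin (n + 1) ⊕ Fin c) ℂ),
      (∀ j, lam j ≠ 0) ∧ (∀ j i, (E j i).IsHomogeneous (d j - 1)) ∧
      x = aeval (Sum.elim (extB fg Ag lam s E) (resB ηg Lamg (fun x => part x ∉ S))) (Θ S)})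
  have hI1 : ∀ i j, (A'g * Ag - 1 : Matrix (Fin (n + 1)) (Fin (n + 1)) A₁) i j ∈ I := fun i j => Ideal.subset_span (Or.inl (Or.inl ⟨i, j, rfl⟩))
  have hI2 : ∀ s i j, (Lbg s * Lamg s - 1 : Matrix (Fin (m s + 1)) (Fin (m s + 1)) A₁) i j ∈ I := fun s i j => Ideal.subset_span (Or.inl (Or.inr ⟨s, i, j, rfl⟩))
  have hI3 : ∀ S : Finset (Fin nb), S.card ≤ c → ∀ (lam : ιL → ℂ) (s : Fin c → Fin n → ℂ)
      (E : ιL → Fin c → MvPolynomial (Fin (n + 1) ⊕ Fin c) ℂ),
      (∀ j, lam j ≠ 0) → (∀ j i, (E j i).IsHomogeneous (d j - 1)) →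
      aeval (Sum.elim (extB fg Ag lam s E) (resB ηg Lamg (fun x => part x ∉ S))) (Θ S) ∈ I :=
    fun S hS lam s E h1 h2 => Ideal.subset_span (Or.inr ⟨S, hS, lam, s, E, h1, h2, rfl⟩)
  let v : A₁ := ∏ j, eval (fun i => Ag i 0) (fmB fg j)
  let S₀ : Submonoid A₁ :=
    { carrier := {x | ∃ Ξ : MvPolynomial (FV (Fin (n + 1)) d ⊕ LV (fun x => mv (sx x))) ℂ, Ξ ≠ 0 ∧
        ∃ k : ℕ, x = rename Sum.inl Ξ * v ^ k}
      mul_mem' := by
        rintro x y ⟨Θ₁, h1, m₁, rfl⟩ ⟨Θ₂, h2, m₂, rfl⟩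
        refine ⟨Θ₁ * Θ₂, mul_ne_zero h1 h2, m₁ + m₂, ?_⟩
        rw [map_mul, pow_add]
        ring
      one_mem' := ⟨1, one_ne_zero, 0, by simp⟩ }
  by_cases hdis : Disjoint (I : Set A₁) S₀
  · exfalso
    obtain ⟨P, hP, hIP, hPS⟩ := Ideal.exists_le_prime_disjoint I S₀ hdis
    let K := FractionRing (A₁ ⧸ P)
    have hess : Algebra.EssFiniteType ℂ K := by
      have h2 : Algebra.EssFiniteType (A₁ ⧸ P) K :=
        Algebra.EssFiniteType.of_isLocalization _ (nonZeroDivisors _)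
      exact Algebra.EssFiniteType.comp ℂ (A₁ ⧸ P) K
    let π : A₁ →ₐ[ℂ] K := (IsScalarTower.toAlgHom ℂ (A₁ ⧸ P) K).comp (Ideal.Quotient.mkₐ ℂ P)
    have hπ0 : ∀ x, π x = 0 ↔ x ∈ P := by
      intro x
      rw [← Ideal.Quotient.eq_zero_iff_mem]
      constructor
      · intro h
        exact (IsFractionRing.injective (A₁ ⧸ P) K) (by rw [map_zero]; exact h)
      · intro h
        change algebraMap (A₁ ⧸ P) K (Ideal.Quotient.mk P x) = 0
        rw [h, map_zero]
    have hnotP : ∀ x ∈ S₀, x ∉ P := fun x hx hxP => Set.disjoint_left.1 hPS hxP hx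
    have hind : Function.Injective (aeval (Sum.elim (fun y => π (fg y)) (fun y => π (ηg y))) :
        MvPolynomial (FV (Fin (n + 1)) d ⊕ LV (fun x => mv (sx x))) ℂ →ₐ[ℂ] K) := by
      have h1 : (aeval (Sum.elim (fun y => π (fg y)) (fun y => π (ηg y))) :
          MvPolynomial (FV (Fin (n + 1)) d ⊕ LV (fun x => mv (sx x))) ℂ →ₐ[ℂ] K) =
          π.comp (rename Sum.inl) := by
        refine MvPolynomial.algHom_ext fun p => ?_
        rw [aeval_X, AlgHom.comp_apply, rename_X]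
        rcases p with p | p <;> rfl
      rw [h1, injective_iff_map_eq_zero]
      intro x hx
      by_contra hx0
      exact hnotP (rename Sum.inl x) ⟨x, hx0, 0, by simp⟩ ((hπ0 _).1 hx)
    have hπv : ∀ j, eval (fun i => Ag.map π i 0) (fmB (fun y => π (fg y)) j) ≠ 0 := by
      intro j hj
      rw [← b7_col π fg Ag j] at hj
      have h2 : π v = 0 := by
        rw [show v = ∏ j, eval (fun i => Ag i 0) (fmB fg j) from rfl, map_prod]
        exact Finset.prod_eq_zero (Finset.mem_univ j) hj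
      exact hnotP v ⟨1, one_ne_zero, 1, by simp⟩ ((hπ0 v).1 h2)
    have hc' : (n + 1) * (n + 1) + ∑ s, (m s + 1) * (mv s + 1) ≤ c := by
      rw [← Finset.mul_sum] at hc
      omega
    obtain ⟨S, hS, lam, s, E, hlam, hE, hne⟩ := generic_good (K := K) d m mv sx part hd hc' Θ hΘ
      (fun y => π (fg y)) (fun y => π (ηg y)) hind (Ag.map π) (A'g.map π)
      (b7_mul π A'g Ag fun i j => (hπ0 _).2 (hIP (hI1 i j))) (fun s => (Lamg s).map π) (fun s => (Lbg s).map π)
      (fun s => b7_mul π (Lbg s) (Lamg s) fun i j => (hπ0 _).2 (hIP (hI2 s i j))) hπv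
    apply hne
    rw [← b7_val π fg Ag lam s E ηg Lamg (fun x => part x ∉ S) (Θ S)]
    exact (hπ0 _).2 (hIP (hI3 S hS lam s E hlam hE))
  · rw [Set.not_disjoint_iff] at hdis
    obtain ⟨x, hxI, Ξ, hΞ, k, hx⟩ := hdis
    refine ⟨Ξ, hΞ, fun f η hfη A A' hA Lam Lb hL hA0 => ?_⟩
    by_contra hcon
    push Not at hcon
    let φ : A₁ →ₐ[ℂ] ℂ := aeval (Sum.elim (Sum.elim f η) (Sum.elim
      (Sum.elim (fun p => A p.1 p.2) (fun p => A' p.1 p.2))
      (Sum.elim (fun q => Lam q.1 q.2.1 q.2.2) (fun q => Lb q.1 q.2.1 q.2.2))))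
    have hφf : (fun y => φ (fg y)) = f := by
      funext y
      exact aeval_X _ _
    have hφη : (fun y => φ (ηg y)) = η := by
      funext y
      exact aeval_X _ _
    have hφA : Ag.map φ = A := by
      ext i j
      exact aeval_X _ _
    have hφA' : A'g.map φ = A' := by
      ext i j
      exact aeval_X _ _
    have hφL : (fun s => (Lamg s).map φ) = Lam := by
      funext s
      ext i j
      exact aeval_X _ _
    have hφLb : ∀ s, (Lbg s).map φ = Lb s := by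
      intro s
      ext i j
      exact aeval_X _ _
    have hIφ : I ≤ RingHom.ker φ := by
      rw [Ideal.span_le]
      rintro _ ((⟨i, j, rfl⟩ | ⟨s, i, j, rfl⟩) | ⟨S, hS, lam, s, E, hlam, hE, rfl⟩)
      · exact b7_mul' φ A'g Ag (by rw [hφA, hφA', hA]) i j
      · exact b7_mul' φ (Lbg s) (Lamg s) (by rw [hφLb s, show (Lamg s).map φ = Lam s from congrFun hφL s, hL s]) i j
      · change φ _ = 0
        rw [b7_val φ fg Ag lam s E ηg Lamg (fun x => part x ∉ S) (Θ S), hφf, hφη, hφA, hφL]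
        exact hcon S hS lam s E hlam hE
    have h1 : φ x = 0 := hIφ hxI
    rw [hx, map_mul, map_pow] at h1
    have h2 : φ (rename Sum.inl Ξ) = eval (Sum.elim f η) Ξ := by
      change aeval _ (rename Sum.inl Ξ) = _
      rw [aeval_rename]
      rfl
    have h3 : φ v = ∏ j, eval (fun i => A i 0) (fmj f j) := by
      change φ (∏ j, eval (fun i => Ag i 0) (fmB fg j)) = _
      rw [map_prod]
      refine Finset.prod_congr rfl fun j _ => ?_
      rw [b7_col φ fg Ag j, hφf, hφA]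
      rfl
    rw [h2, h3] at h1
    exact mul_ne_zero hfη (pow_ne_zero k (Finset.prod_ne_zero_iff.2 fun j _ => hA0 j)) h1

end Pool.Agent.H78B
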