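import Pool.Agent.Lib.H53Y.IDE
import Pool.Agent.Lib.H89T.DP8

set_option autoImplicit false

/-!
H78B: module E of Lib/H53Y (no exceptional set).  Definitions.  See PROOF.md.
-/

open MvPolynomial

namespace Pool.Agent.H78B

open Pool.Agent.H89T Pool.Agent.H53Y

section defs

variable {B : Type} [CommRing B] {n c : ℕ}

/-- The form `F ∘ A`. -/
noncomputable def subB (A : Matrix (Fin (n + 1)) (Fin (n + 1)) B)
    (F : MvPolynomial (Fin (n + 1)) B) : MvPolynomial (Fin (n + 1)) B :=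
  aeval (fun i => ∑ j, C (A i j) * X j) F

/-- The form of index `j`. -/
noncomputable def fmB {ιL ν : Type} [Fintype ν] [DecidableEq ν] {d : ιL → ℕ} (f : FV ν d → B)
    (j : ιL) : MvPolynomial ν B := fm (fun δ : Ex ν (d j) => f ⟨j, δ⟩)

/-- The coefficients of the extended forms. -/
noncomputable def extB [Algebra ℂ B] {ιL : Type} {d : ιL → ℕ} (f : FV (Fin (n + 1)) d → B)
    (A : Matrix (Fin (n + 1)) (Fin (n + 1)) B) (lam : ιL → ℂ) (s : Fin c → Fin n → ℂ)
    (E : ιL → Fin c → MvPolynomial (Fin (n + 1) ⊕ Fin c) ℂ) :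
    FV (Fin (n + 1) ⊕ Fin c) d → B :=
  fun x => coeff x.2.1 (big B (lam x.1) (psi s (E x.1)) (subB A (fmB f x.1)))

/-- The coefficients of the restricted linear forms. -/
noncomputable def resB {κ σ : Type} {m mv : σ → ℕ} {sx : κ → σ}
    (η : LV (fun x => mv (sx x)) → B)
    (Lam : (s : σ) → Matrix (Fin (mv s + 1)) (Fin (m s + 1)) B) (Q : κ → Prop) :
    LV (fun x : {x : κ // Q x} => m (sx x.1)) → B :=
  fun x => ∑ l, η ⟨x.1.1, l⟩ * Lam (sx x.1.1) l x.2

theorem extB_complex {ιL : Type} {d : ιL → ℕ} (f : FV (Fin (n + 1)) d → ℂ)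
    (A : Matrix (Fin (n + 1)) (Fin (n + 1)) ℂ) (lam : ιL → ℂ) (s : Fin c → Fin n → ℂ)
    (E : ιL → Fin c → MvPolynomial (Fin (n + 1) ⊕ Fin c) ℂ) :
    extB f A lam s E = extC f A lam s E := rfl

theorem resB_complex {κ σ : Type} {m mv : σ → ℕ} {sx : κ → σ}
    (η : LV (fun x => mv (sx x)) → ℂ)
    (Lam : (s : σ) → Matrix (Fin (mv s + 1)) (Fin (m s + 1)) ℂ) (Q : κ → Prop) :
    resB η Lam Q = resC η Lam Q := rfl

/-- The parameters of the generic extension of the family `g j`: factors `lam j`, linear forms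
`s i` (the same for all `j`), forms `E j i` of degree `d j - 1`. -/
abbrev PB (ιL : Type) (n c : ℕ) (d : ιL → ℕ) : Type :=
  ιL ⊕ (Fin c × Fin n) ⊕ (Σ j : ιL, Fin c × Ex (Fin (n + 1) ⊕ Fin c) (d j - 1))

/-- The generic extension of the form `g` of index `j`. -/
noncomputable def genB {ιL : Type} (d : ιL → ℕ) (j : ιL) (g : MvPolynomial (Fin (n + 1)) B) :
    MvPolynomial (Fin (n + 1) ⊕ Fin c) (MvPolynomial (PB ιL n c d) B) :=
  C (X (Sum.inl j)) * (rename Sum.inl (map (C : B →+* MvPolynomial (PB ιL n c d) B) g) +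
    ∑ i : Fin c, (X (Sum.inr i) +
      ∑ b : Fin n, C (X (Sum.inr (Sum.inl (i, b)))) * X (Sum.inl b.succ)) *
        fm fun δ : Ex (Fin (n + 1) ⊕ Fin c) (d j - 1) =>
          (X (Sum.inr (Sum.inr ⟨j, i, δ⟩)) : MvPolynomial (PB ιL n c d) B))

end defs

end Pool.Agent.H78B
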