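import Pool.Agent.Lib.H78B.B0

set_option autoImplicit false

/-!
B2 (M).  The greedy choice for a family of forms.

Proof.  `H89T.greedy` with `V = ∀ j, homogeneousSubmodule (Fin (n + 1)) K (d j)`,
`W = ∀ j, homogeneousSubmodule (Fin (n + 1)) K (d j - 1)`, `B = Fin n`,
`β b w = fun j => ⟨X b.succ * w j, _⟩` (degree `1 + (d j - 1) = d j`).  For `hfull`: let `T ≤ T'` and
`β b w ∈ T'` for all `b, w`.  For every `j` the set of the forms `f` of degree `d j` with
`Pi.single j f ∈ T'` is everything by `H89T.forms_generated` (with `w = Pi.single j w_j`, and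
`Pi.single j (g j) ∈ T ≤ T'`); see the use of `forms_generated` in `H89T.greedy_forms`
(Lib/H89T/DP7.lean).  Every `v` is `∑ j, Pi.single j (v j)` (`Finset.univ_sum_single`).
-/

open MvPolynomial

namespace Pool.Agent.H78B

open Pool.Agent.H89T Pool.Agent.H53Y

theorem greedy_family {K : Type} [Field K] {n c : ℕ} {ιL : Type} [Fintype ιL] [DecidableEq ιL]
    (d : ιL → ℕ) (hd : ∀ j, 1 ≤ d j) (g : ιL → MvPolynomial (Fin (n + 1)) K)
    (hg : ∀ j, (g j).IsHomogeneous (d j)) (hg0 : ∀ j, eval (Pi.single 0 1) (g j) ≠ 0)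
    (T : Submodule K (∀ j, homogeneousSubmodule (Fin (n + 1)) K (d j)))
    (hT : ∀ j, (Pi.single j ⟨g j, hg j⟩ : ∀ j, homogeneousSubmodule (Fin (n + 1)) K (d j)) ∈ T)
    (p : Fin c → ∀ j, homogeneousSubmodule (Fin (n + 1)) K (d j))
    (hp : T ⊔ Submodule.span K (Set.range p) = ⊤) :
    ∃ w : Fin c → ιL → MvPolynomial (Fin (n + 1)) K, (∀ i j, (w i j).IsHomogeneous (d j - 1)) ∧
      ∀ f : ∀ j, homogeneousSubmodule (Fin (n + 1)) K (d j), ∃ t ∈ T, ∃ ν : Fin c → Fin n → K,
        ∀ j, (f j : MvPolynomial (Fin (n + 1)) K) =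
          t j + ∑ i, (∑ b, C (ν i b) * X b.succ) * w i j := by
  classical
  have hX : ∀ (j : ιL) (b : Fin n) (w : MvPolynomial (Fin (n + 1)) K), w.IsHomogeneous (d j - 1) →
      (X b.succ * w).IsHomogeneous (d j) := by
    intro j b w hw
    have h1 : (X b.succ * w).IsHomogeneous (1 + (d j - 1)) := (isHomogeneous_X K b.succ).mul hw
    rwa [Nat.add_sub_cancel' (hd j)] at h1
  obtain ⟨w, hw⟩ := greedy (K := K) (V := ∀ j, homogeneousSubmodule (Fin (n + 1)) K (d j))
    (W := ∀ j, homogeneousSubmodule (Fin (n + 1)) K (d j - 1)) (B := Fin n)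
    (fun b w j => ⟨X b.succ * (w j).1, hX j b _ (w j).2⟩) T p hp
    (by
      intro T' hTT' hT'
      rw [eq_top_iff]
      rintro v -
      rw [← Finset.univ_sum_single v]
      refine Submodule.sum_mem _ fun j _ => ?_
      have h1 : (v j).1 ∈ (T'.comap (LinearMap.single K
          (fun j => homogeneousSubmodule (Fin (n + 1)) K (d j)) j)).map
          (homogeneousSubmodule (Fin (n + 1)) K (d j)).subtype := by
        refine forms_generated _ (fun b w hw => ?_) (hg j) (hg0 j) ?_ (v j).2
        · refine ⟨⟨X b.succ * w, hX j b w hw⟩, ?_, rfl⟩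
          have h2 := hT' b (Pi.single j ⟨w, hw⟩)
          have h3 : (fun i => ⟨X b.succ * ((Pi.single j ⟨w, hw⟩ :
              ∀ j, homogeneousSubmodule (Fin (n + 1)) K (d j - 1)) i).1,
              hX i b _ ((Pi.single j ⟨w, hw⟩ :
                ∀ j, homogeneousSubmodule (Fin (n + 1)) K (d j - 1)) i).2⟩ :
              ∀ j, homogeneousSubmodule (Fin (n + 1)) K (d j)) =
              LinearMap.single K (fun j => homogeneousSubmodule (Fin (n + 1)) K (d j)) j
                ⟨X b.succ * w, hX j b w hw⟩ := by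
            funext i
            apply Subtype.ext
            by_cases h : i = j
            · subst h
              rw [LinearMap.single_apply, Pi.single_eq_same, Pi.single_eq_same]
            · rw [LinearMap.single_apply, Pi.single_eq_of_ne h, Pi.single_eq_of_ne h]
              simp
          rw [h3] at h2
          exact h2
        · exact ⟨⟨g j, hg j⟩, hTT' (hT j), rfl⟩
      obtain ⟨v', hv', h2⟩ := h1
      have h3 : v' = v j := Subtype.ext h2
      rw [← h3]
      exact hv')
  refine ⟨fun i j => (w i j).1, fun i j => (w i j).2, fun f => ?_⟩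
  have h1 : f ∈ T ⊔ Submodule.span K
      (Set.range fun x : Fin n × Fin c => (fun j => ⟨X x.1.succ * (w x.2 j).1, hX j x.1 _ (w x.2 j).2⟩ :
        ∀ j, homogeneousSubmodule (Fin (n + 1)) K (d j))) := by
    rw [hw]
    trivial
  obtain ⟨t, ht, v, hv, htv⟩ := Submodule.mem_sup.1 h1
  obtain ⟨ν, hν⟩ := (Submodule.mem_span_range_iff_exists_fun K).1 hv
  refine ⟨t, ht, fun i b => ν (b, i), fun j => ?_⟩
  have h2 := congrArg (fun z : ∀ j, homogeneousSubmodule (Fin (n + 1)) K (d j) => (z j).1) htv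
  simp only [Pi.add_apply, Submodule.coe_add] at h2
  rw [← h2, ← hν, Finset.sum_apply, Submodule.coe_sum]
  congr 1
  rw [Fintype.sum_prod_type, Finset.sum_comm]
  refine Finset.sum_congr rfl fun i _ => ?_
  rw [Finset.sum_mul]
  refine Finset.sum_congr rfl fun b _ => ?_
  rw [Pi.smul_apply, Submodule.coe_smul, smul_eq_C_mul]
  ring

end Pool.Agent.H78B
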