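import Pool.Agent.Lib.H89T.DP6

set_option autoImplicit false

/-!
B4 (M).  The derivations of `K` which kill the parameters `lam`, evaluated at algebraically
independent elements, have codimension at most the number of parameters.

Proof.  `L = {D : Derivation ℂ K K}` is a `K`-vector space, `f : L → (ρ → K)`, `D ↦ (D (lam i))_i`
is linear, so `L ⧸ ker f` has dimension at most `card ρ ≤ c` and there are `D_1, …, D_c` in `L` such
that every `D` is `D' + ∑ μ i • D_i` with `D' ∈ ker f`.  Put `p i = (D_i (π (X t)))_t`.  Given `v` take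
`D` with `D (π (X t)) = v t` (`H89T.ext_field`).
-/

open MvPolynomial

namespace Pool.Agent.H78B

open Pool.Agent.H89T

theorem b4_lift {K V W : Type*} [Field K] [AddCommGroup V] [Module K V] [AddCommGroup W] [Module K W]
    [FiniteDimensional K W] (f : V →ₗ[K] W) {c : ℕ} (hc : Module.finrank K W ≤ c) :
    ∃ q : Fin c → V, ∀ v : V, ∃ μ : Fin c → K, f v = ∑ i, μ i • f (q i) := by
  classical
  have hm : Module.finrank K (LinearMap.range f) ≤ c := (Submodule.finrank_le _).trans hc
  let b := Module.finBasis K (LinearMap.range f)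
  have hb : ∀ i, ∃ v, f v = b i := fun i => (b i).2
  choose q0 hq0 using hb
  refine ⟨fun i => if h : i.1 < Module.finrank K (LinearMap.range f) then q0 ⟨i.1, h⟩ else 0, fun v => ?_⟩
  have hv : f v ∈ Submodule.span K (Set.range fun i : Fin c =>
      f (if h : i.1 < Module.finrank K (LinearMap.range f) then q0 ⟨i.1, h⟩ else 0)) := by
    have h1 := b.sum_repr ⟨f v, LinearMap.mem_range_self f v⟩
    have h2 := congrArg (Submodule.subtype (LinearMap.range f)) h1
    rw [map_sum] at h2
    simp only [map_smul, Submodule.subtype_apply] at h2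
    rw [← h2]
    refine Submodule.sum_mem _ fun i _ => Submodule.smul_mem _ _ ?_
    rw [← hq0 i]
    refine Submodule.subset_span ⟨⟨i.1, i.2.trans_le hm⟩, ?_⟩
    beta_reduce
    rw [dif_pos i.2]
  rw [Submodule.mem_span_range_iff_exists_fun] at hv
  obtain ⟨μ, hμ⟩ := hv
  exact ⟨μ, hμ.symm⟩

theorem der_codim {τ K : Type} [Field K] [Algebra ℂ K] [Algebra.EssFiniteType ℂ K]
    (π : MvPolynomial τ ℂ →ₐ[ℂ] K) (hπ : Function.Injective π) {c : ℕ} {ρ : Type} [Fintype ρ]
    (hρ : Fintype.card ρ ≤ c) (lam : ρ → K) :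
    ∃ p : Fin c → (τ → K), ∀ v : τ → K, ∃ (D : Derivation ℂ K K) (μ : Fin c → K),
      (∀ i, D (lam i) = 0) ∧ ∀ t, v t = D (π (X t)) + ∑ i, μ i * p i t := by
  classical
  let f : Derivation ℂ K K →ₗ[K] (ρ → K) :=
    { toFun := fun D i => D (lam i)
      map_add' := fun D E => rfl
      map_smul' := fun a D => rfl }
  have hf : ∀ D i, f D i = D (lam i) := fun D i => rfl
  have hc : Module.finrank K (ρ → K) ≤ c := by
    rw [Module.finrank_fintype_fun_eq_card]
    exact hρ
  obtain ⟨q, hq⟩ := b4_lift f hc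
  refine ⟨fun i t => q i (π (X t)), fun v => ?_⟩
  obtain ⟨D, hD⟩ := ext_field π hπ v
  obtain ⟨μ, hμ⟩ := hq D
  have e : ∀ x, (D - ∑ i, μ i • q i) x = D x - ∑ i, μ i * q i x := by
    intro x
    rw [Derivation.sub_apply]
    congr 1
    have h1 := congrFun (congrArg (fun D : Derivation ℂ K K => (D : K → K)) (rfl : (∑ i, μ i • q i) = ∑ i, μ i • q i)) x
    have h2 : (Derivation.coeFnAddMonoidHom (∑ i, μ i • q i) : K → K) x = ∑ i, μ i * q i x := by
      rw [map_sum, Finset.sum_apply]
      rfl
    exact h2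
  refine ⟨D - ∑ i, μ i • q i, μ, fun j => ?_, fun t => ?_⟩
  · rw [e]
    have h1 := congrFun hμ j
    rw [hf, Finset.sum_apply] at h1
    rw [h1]
    exact sub_self _
  · rw [e, hD, sub_add_cancel]

end Pool.Agent.H78B
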