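import Pool.Agent.Lib.H78B.B0

set_option autoImplicit false

/-!
B6a (S/M, four lemmas).  Linear substitutions: `subB A F = F ∘ A`.

b6_sub: `algHom_ext` (both sides are values of algebra homomorphisms; on `X i`:
`∑_j C (A' i j) * ∑_k C (A j k) * X k = X i`).  b6_hom: `IsHomogeneous.aeval` as in
`H89T.shear_homogeneous` (Lib/H89T/DP8.lean).  b6_eval: induction as in `H89T.eval_shear`.
b6_mcf: `H89T.mcf_aeval` (Lib/H89T/DP6.lean); `mcf D (∑ j, C (A i j) * X j) = 0`.
-/

open MvPolynomial

namespace Pool.Agent.H78B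

open Pool.Agent.H89T Pool.Agent.H53Y

theorem b6_sub {B : Type} [CommRing B] {n : ℕ} (A A' : Matrix (Fin (n + 1)) (Fin (n + 1)) B)
    (h : A' * A = 1) (F : MvPolynomial (Fin (n + 1)) B) : subB A (subB A' F) = F := by
  induction F using MvPolynomial.induction_on with
  | C x => simp [subB, MvPolynomial.algebraMap_eq]
  | add p q hp hq =>
    simp only [subB, map_add] at hp hq ⊢
    rw [hp, hq]
  | mul_X p i hp =>
    simp only [subB, map_mul, aeval_X] at hp ⊢
    rw [hp]
    congr 1
    rw [map_sum]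
    have h1 : ∀ j, aeval (fun i => ∑ j, C (A i j) * X j : Fin (n + 1) →
        MvPolynomial (Fin (n + 1)) B) (C (A' i j) * X j : MvPolynomial (Fin (n + 1)) B) =
        ∑ l, C (A' i j * A j l) * X l := by
      intro j
      rw [map_mul, aeval_C, aeval_X, MvPolynomial.algebraMap_eq, Finset.mul_sum]
      refine Finset.sum_congr rfl fun l _ => ?_
      rw [← mul_assoc, ← C_mul]
    rw [Finset.sum_congr rfl fun j _ => h1 j, Finset.sum_comm]
    have h2 : ∀ l, ∑ j, (C (A' i j * A j l) * X l : MvPolynomial (Fin (n + 1)) B) =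
        C ((1 : Matrix (Fin (n + 1)) (Fin (n + 1)) B) i l) * X l := by
      intro l
      rw [← Finset.sum_mul, ← map_sum, ← h, Matrix.mul_apply]
    rw [Finset.sum_congr rfl fun l _ => h2 l, Finset.sum_eq_single i]
    · rw [Matrix.one_apply_eq, C_1, one_mul]
    · intro l _ hl
      rw [Matrix.one_apply_ne (Ne.symm hl), C_0, zero_mul]
    · intro hi
      exact absurd (Finset.mem_univ i) hi

theorem b6_hom {B : Type} [CommRing B] {n k : ℕ} (A : Matrix (Fin (n + 1)) (Fin (n + 1)) B)
    {F : MvPolynomial (Fin (n + 1)) B} (hF : F.IsHomogeneous k) : (subB A F).IsHomogeneous k := by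
  have h := hF.aeval (fun i => ∑ j, C (A i j) * X j :
    Fin (n + 1) → MvPolynomial (Fin (n + 1)) B) (n := 1) (fun i => by
      refine IsHomogeneous.sum _ _ _ fun j _ => ?_
      have h1 := (isHomogeneous_C (Fin (n + 1)) (A i j)).mul (isHomogeneous_X B j)
      rwa [zero_add] at h1)
  rwa [one_mul] at h

theorem b6_eval {B : Type} [CommRing B] {n : ℕ} (A : Matrix (Fin (n + 1)) (Fin (n + 1)) B)
    (F : MvPolynomial (Fin (n + 1)) B) :
    eval (Pi.single 0 1) (subB A F) = eval (fun i => A i 0) F := by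
  induction F using MvPolynomial.induction_on with
  | C x => simp [subB, MvPolynomial.algebraMap_eq]
  | add p q hp hq =>
    simp only [subB, map_add] at hp hq ⊢
    rw [hp, hq]
  | mul_X p i hp =>
    simp only [subB, map_mul, aeval_X, eval_X] at hp ⊢
    rw [hp]
    congr 1
    rw [map_sum, Finset.sum_eq_single 0]
    · rw [map_mul, eval_C, eval_X, Pi.single_eq_same, mul_one]
    · intro j _ hj
      rw [map_mul, eval_X, Pi.single_eq_of_ne hj, mul_zero]
    · intro h
      exact absurd (Finset.mem_univ _) h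

theorem b6_mcf {B : Type} [CommRing B] [Algebra ℂ B] {n : ℕ} (D : Derivation ℂ B B)
    (A : Matrix (Fin (n + 1)) (Fin (n + 1)) B) (hA : ∀ i j, D (A i j) = 0)
    (F : MvPolynomial (Fin (n + 1)) B) : mcf D (subB A F) = subB A (mcf D F) := by
  rw [subB, mcf_aeval, subB, Finset.sum_eq_zero, add_zero]
  intro i _
  rw [map_sum, Finset.sum_eq_zero, mul_zero]
  intro j _
  rw [Derivation.leibniz, mcf_X, mcf_C, hA, C_0, smul_zero, smul_zero, add_zero]

end Pool.Agent.H78B
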